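import Pool.Agent.helper62.VQ.SpecE

set_option autoImplicit false

open scoped MatrixGroups ContDiff Topology UpperHalfPlane
open UpperHalfPlane MeasureTheory Filter Set

namespace Pool.Agent.VQE

open Pool.Agent.RS

theorem CUR_mul {u v U V : ℝ} (hu : |u| ≤ U) (hv : |v| ≤ V) : |u * v| ≤ U * V := by
  rw [abs_mul]
  exact mul_le_mul hu hv (abs_nonneg _) ((abs_nonneg _).trans hu)

theorem CUR_sqrt (y : ℝ) (hy : |y| ≤ 1 / 1000) : |√(1 + y) - 1| ≤ |y| := by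
  have h0 : 0 ≤ 1 + y := by
    have := (abs_le.1 hy).1
    linarith
  have h1 : √(1 + y) * √(1 + y) = 1 + y := Real.mul_self_sqrt h0
  have h2 : 0 ≤ √(1 + y) := Real.sqrt_nonneg _
  have h3 : (√(1 + y) - 1) * (√(1 + y) + 1) = y := by linear_combination h1
  have h4 : |√(1 + y) - 1| * |√(1 + y) + 1| = |y| := by rw [← abs_mul, h3]
  rw [abs_of_nonneg (by linarith : 0 ≤ √(1 + y) + 1)] at h4
  nlinarith [abs_nonneg (√(1 + y) - 1)]

theorem CUR_sqrt2 (y y' : ℝ) (hy : |y| ≤ 1 / 1000) (hy' : |y'| ≤ 1 / 1000) :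
    |√(1 + y) - √(1 + y')| ≤ |y - y'| := by
  have h0 : 0 ≤ 1 + y := by
    have := (abs_le.1 hy).1
    linarith
  have h0' : 0 ≤ 1 + y' := by
    have := (abs_le.1 hy').1
    linarith
  have h1 : √(1 + y) * √(1 + y) = 1 + y := Real.mul_self_sqrt h0
  have h1' : √(1 + y') * √(1 + y') = 1 + y' := Real.mul_self_sqrt h0'
  have ha := (abs_le.1 (CUR_sqrt y hy)).1
  have ha' := (abs_le.1 (CUR_sqrt y' hy')).1
  have h3 : (√(1 + y) - √(1 + y')) * (√(1 + y) + √(1 + y')) = y - y' := by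
    linear_combination h1 - h1'
  have h4 : |√(1 + y) - √(1 + y')| * |√(1 + y) + √(1 + y')| = |y - y'| := by rw [← abs_mul, h3]
  have h5 : 1 ≤ √(1 + y) + √(1 + y') := by linarith
  rw [abs_of_nonneg (by linarith : 0 ≤ √(1 + y) + √(1 + y'))] at h4
  nlinarith [abs_nonneg (√(1 + y) - √(1 + y'))]

theorem CUR_alg (a a' x x' χ χ' e00 e01 e10 e11 m : ℝ) (hm : 0 ≤ m)
    (hx : |x| ≤ 1 / 1000) (hx' : |x'| ≤ 1 / 1000) (hχ : |χ| ≤ 1 / 4000) (hχ' : |χ'| ≤ 1 / 4000)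
    (ha : |a - 1| ≤ 1 / 1000) (ha' : |a' - 1| ≤ 1 / 1000) (haa : |a - a'| ≤ m / 1000)
    (hxx : |x' - x| ≤ m) (hχχ : |χ' - χ| ≤ m) (h00 : |e00| ≤ 2 * m) (h01 : |e01| ≤ 2 * m)
    (h10 : |e10| ≤ 2 * m) (h11 : |e11| ≤ 2 * m) :
    |(-χ * ((1 + e00) * a' + e01 * χ') + a * (e10 * a' + (1 + e11) * χ')) - (e10 + (χ' - χ))| ≤ m / 25 ∧
    |(a * ((1 + e00) * x' + e01 * a') - x * (e10 * x' + (1 + e11) * a')) - (e01 + (x' - x))| ≤ m / 25 ∧
    |((a * ((1 + e00) * a' + e01 * χ') - x * (e10 * a' + (1 + e11) * χ')) -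
      (-χ * ((1 + e00) * x' + e01 * a') + a * (e10 * x' + (1 + e11) * a'))) - (e00 - e11)| ≤ m / 25 := by
  have hA : |a| ≤ 2 := by
    have := abs_le.1 ha
    exact abs_le.2 ⟨by linarith, by linarith⟩
  have hA' : |a'| ≤ 2 := by
    have := abs_le.1 ha'
    exact abs_le.2 ⟨by linarith, by linarith⟩
  have hP : |a * a' - 1| ≤ 21 / 10000 := by
    have h1 := abs_le.1 (CUR_mul ha ha')
    have h2 := abs_le.1 ha
    have h3 := abs_le.1 ha'
    have h4 : a * a' - 1 = (a - 1) * (a' - 1) + (a - 1) + (a' - 1) := by ring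
    rw [h4]
    exact abs_le.2 ⟨by linarith, by linarith⟩
  refine ⟨?_, ?_, ?_⟩
  · have e : (-χ * ((1 + e00) * a' + e01 * χ') + a * (e10 * a' + (1 + e11) * χ')) - (e10 + (χ' - χ)) =
        (a - 1) * (χ' - χ) + (a - a') * χ - χ * (e00 * a') - χ * (e01 * χ') + e10 * (a * a' - 1) +
          a * (e11 * χ') := by ring
    rw [e]
    have t1 := abs_le.1 (CUR_mul ha hχχ)
    have t2 := abs_le.1 (CUR_mul haa hχ)
    have t3 := abs_le.1 (CUR_mul hχ (CUR_mul h00 hA'))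
    have t4 := abs_le.1 (CUR_mul hχ (CUR_mul h01 hχ'))
    have t5 := abs_le.1 (CUR_mul h10 hP)
    have t6 := abs_le.1 (CUR_mul hA (CUR_mul h11 hχ'))
    exact abs_le.2 ⟨by linarith, by linarith⟩
  · have e : (a * ((1 + e00) * x' + e01 * a') - x * (e10 * x' + (1 + e11) * a')) - (e01 + (x' - x)) =
        (a - 1) * (x' - x) + (a - a') * x + a * (e00 * x') + e01 * (a * a' - 1) - x * (e10 * x') -
          x * (e11 * a') := by ring
    rw [e]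
    have t1 := abs_le.1 (CUR_mul ha hxx)
    have t2 := abs_le.1 (CUR_mul haa hx)
    have t3 := abs_le.1 (CUR_mul hA (CUR_mul h00 hx'))
    have t4 := abs_le.1 (CUR_mul h01 hP)
    have t5 := abs_le.1 (CUR_mul hx (CUR_mul h10 hx'))
    have t6 := abs_le.1 (CUR_mul hx (CUR_mul h11 hA'))
    exact abs_le.2 ⟨by linarith, by linarith⟩
  · have e : ((a * ((1 + e00) * a' + e01 * χ') - x * (e10 * a' + (1 + e11) * χ')) -
      (-χ * ((1 + e00) * x' + e01 * a') + a * (e10 * x' + (1 + e11) * a'))) - (e00 - e11) =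
        e00 * (a * a' - 1) - e11 * (a * a' - 1) + a * (e01 * χ') - x * (e10 * a') - x * (e11 * χ') +
          χ * (e00 * x') + χ * (e01 * a') - a * (e10 * x') + χ * (x' - x) - x * (χ' - χ) := by ring
    rw [e]
    have t1 := abs_le.1 (CUR_mul h00 hP)
    have t2 := abs_le.1 (CUR_mul h11 hP)
    have t3 := abs_le.1 (CUR_mul hA (CUR_mul h01 hχ'))
    have t4 := abs_le.1 (CUR_mul hx (CUR_mul h10 hA'))
    have t5 := abs_le.1 (CUR_mul hx (CUR_mul h11 hχ'))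
    have t6 := abs_le.1 (CUR_mul hχ (CUR_mul h00 hx'))
    have t7 := abs_le.1 (CUR_mul hχ (CUR_mul h01 hA'))
    have t8 := abs_le.1 (CUR_mul hA (CUR_mul h10 hx'))
    have t9 := abs_le.1 (CUR_mul hχ hxx)
    have t10 := abs_le.1 (CUR_mul hx hχχ)
    exact abs_le.2 ⟨by linarith, by linarith⟩

theorem CUR_e (D00 D01 D10 D11 A00 A01 A10 A11 W00 W01 W10 W11 s m : ℝ) (hm : 0 ≤ m) (hm1 : m ≤ 1 / 500)
    (a00 : |A00 - D00| ≤ 6 / 1000 * m) (a01 : |A01 - D01| ≤ 6 / 1000 * m)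
    (a10 : |A10 - D10| ≤ 6 / 1000 * m) (a11 : |A11 - D11| ≤ 6 / 1000 * m)
    (d00 : |D00 - 1| ≤ 1 / 1000) (d01 : |D01| ≤ 1 / 1000) (d10 : |D10| ≤ 1 / 1000)
    (d11 : |D11 - 1| ≤ 1 / 1000)
    (w00 : |W00 - 1 - s / 2| ≤ 42 / 10000 * m) (w01 : |W01| ≤ 42 / 10000 * m)
    (w10 : |W10| ≤ 42 / 10000 * m) (w11 : |W11 - 1 + s / 2| ≤ 42 / 10000 * m) (hs : |s| ≤ m) :
    |(A00 * W00 + A01 * W10) - (D00 + s / 2)| ≤ 13 / 1000 * m ∧
    |(A00 * W01 + A01 * W11) - D01| ≤ 13 / 1000 * m ∧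
    |(A10 * W00 + A11 * W10) - D10| ≤ 13 / 1000 * m ∧
    |(A10 * W01 + A11 * W11) - (D11 - s / 2)| ≤ 13 / 1000 * m := by
  have a00' := abs_le.1 a00
  have a01' := abs_le.1 a01
  have a10' := abs_le.1 a10
  have a11' := abs_le.1 a11
  have d00' := abs_le.1 d00
  have d01' := abs_le.1 d01
  have d10' := abs_le.1 d10
  have d11' := abs_le.1 d11
  have w00' := abs_le.1 w00
  have w01' := abs_le.1 w01
  have w10' := abs_le.1 w10
  have w11' := abs_le.1 w11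
  have hs' := abs_le.1 hs
  have u00 : |A00 - 1| ≤ 11 / 10000 := abs_le.2 ⟨by linarith, by linarith⟩
  have u01 : |A01| ≤ 11 / 10000 := abs_le.2 ⟨by linarith, by linarith⟩
  have u10 : |A10| ≤ 11 / 10000 := abs_le.2 ⟨by linarith, by linarith⟩
  have u11 : |A11 - 1| ≤ 11 / 10000 := abs_le.2 ⟨by linarith, by linarith⟩
  have v00 : |W00 - 1| ≤ m := abs_le.2 ⟨by linarith, by linarith⟩
  have v11 : |W11 - 1| ≤ m := abs_le.2 ⟨by linarith, by linarith⟩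
  refine ⟨?_, ?_, ?_, ?_⟩
  · have e : (A00 * W00 + A01 * W10) - (D00 + s / 2) = (A00 - D00) + (W00 - 1 - s / 2) +
        (A00 - 1) * (W00 - 1) + A01 * W10 := by ring
    rw [e]
    have t1 := abs_le.1 (CUR_mul u00 v00)
    have t2 := abs_le.1 (CUR_mul u01 w10)
    exact abs_le.2 ⟨by linarith, by linarith⟩
  · have e : (A00 * W01 + A01 * W11) - D01 = (A01 - D01) + W01 + (A00 - 1) * W01 + A01 * (W11 - 1) := by
      ring
    rw [e]
    have t1 := abs_le.1 (CUR_mul u00 w01)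
    have t2 := abs_le.1 (CUR_mul u01 v11)
    exact abs_le.2 ⟨by linarith, by linarith⟩
  · have e : (A10 * W00 + A11 * W10) - D10 = (A10 - D10) + W10 + (A11 - 1) * W10 + A10 * (W00 - 1) := by
      ring
    rw [e]
    have t1 := abs_le.1 (CUR_mul u11 w10)
    have t2 := abs_le.1 (CUR_mul u10 v00)
    exact abs_le.2 ⟨by linarith, by linarith⟩
  · have e : (A10 * W01 + A11 * W11) - (D11 - s / 2) = (A11 - D11) + (W11 - 1 + s / 2) +
        (A11 - 1) * (W11 - 1) + A10 * W01 := by ring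
    rw [e]
    have t1 := abs_le.1 (CUR_mul u11 v11)
    have t2 := abs_le.1 (CUR_mul u10 w01)
    exact abs_le.2 ⟨by linarith, by linarith⟩

theorem CUR_dg (b c : ℝ) (h : 0 ≤ 1 + b * c) :
    (dg b c).1 = !![√(1 + b * c), b; c, √(1 + b * c)] := by
  unfold dg
  rw [dif_pos h]

theorem CUR_nm (R : SL(2, ℝ)) : |R.1 0 0 - 1| ≤ nm R ∧ |R.1 0 1| ≤ nm R ∧ |R.1 1 0| ≤ nm R ∧
    |R.1 1 1 - 1| ≤ nm R := by
  unfold nm
  exact ⟨(le_max_left _ _).trans (le_max_left _ _), (le_max_right _ _).trans (le_max_left _ _),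
    (le_max_left _ _).trans (le_max_right _ _), (le_max_right _ _).trans (le_max_right _ _)⟩

theorem CUR_E (h2 : SML_stmt) (h3 : SME_stmt)
    (δ : ℝ) (p q : SL(2, ℝ) → ℝ) (f : ℝ → SL(2, ℝ) → SL(2, ℝ)) (hδ : 0 ≤ δ) (hδ' : δ ≤ 1 / 10000)
    (hF : Fld δ p q) (hW : Flw p q f) (g D : SL(2, ℝ)) (m : ℝ) (hm0 : 0 ≤ m) (hm1 : m ≤ 1 / 500)
    (hnm : nm D ≤ m) (hnm1 : nm D ≤ 1 / 1000)
    (t t' : ℝ) (ht : |t| ≤ 1 / 1000) (hs : |t' - t| ≤ m) (hs1 : |t' - t| ≤ 1 / 500) :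
    ∃ E : SL(2, ℝ), f t' (g * D) = f t g * E ∧
    |E.1 0 0 - (D.1 0 0 + (t' - t) / 2)| ≤ 13 / 1000 * m ∧
    |E.1 0 1 - D.1 0 1| ≤ 13 / 1000 * m ∧
    |E.1 1 0 - D.1 1 0| ≤ 13 / 1000 * m ∧
    |E.1 1 1 - (D.1 1 1 - (t' - t) / 2)| ≤ 13 / 1000 * m := by
  obtain ⟨n00, n01, n10, n11⟩ := CUR_nm D
  have hE1 := h3 δ p q f hδ (by linarith) hF hW g D t (by linarith) (by linarith)
  obtain ⟨A, hA⟩ : ∃ A, A = (f t g)⁻¹ * f t (g * D) := ⟨_, rfl⟩
  rw [← hA] at hE1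
  have hE2 : ∀ i j : Fin 2, |A.1 i j - D.1 i j| ≤ 6 / 1000 * m := by
    intro i j
    refine (hE1 i j).trans ?_
    have : |t| * nm D ≤ 1 / 1000 * m := mul_le_mul ht hnm
      ((abs_nonneg _).trans n00) (by norm_num)
    linarith
  obtain ⟨W, hWd⟩ : ∃ W, W = (f t (g * D))⁻¹ * f (t' - t) (f t (g * D)) := ⟨_, rfl⟩
  have hS := h2 δ p q f hδ (by linarith) hF hW (f t (g * D)) (1 / 500) (t' - t) 0 (by norm_num) hs1
    (by norm_num)
  rw [← hWd, hW.zero, inv_mul_cancel] at hS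
  obtain ⟨-, w00, w11, w01, w10⟩ := hS
  have hb : (2 * (1 / 500) + 2 * δ) * |t' - t - 0| ≤ 42 / 10000 * m := by
    rw [sub_zero]
    exact mul_le_mul (by linarith) hs (abs_nonneg _) (by norm_num)
  have hEe : f t' (g * D) = f t g * (A * W) := by
    rw [hA, hWd]
    have : t' = (t' - t) + t := by ring
    conv_lhs => rw [this, hW.add]
    group
  refine ⟨A * W, hEe, ?_⟩
  have hq := CUR_e (D.1 0 0) (D.1 0 1) (D.1 1 0) (D.1 1 1) (A.1 0 0) (A.1 0 1) (A.1 1 0)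
    (A.1 1 1) (W.1 0 0) (W.1 0 1) (W.1 1 0) (W.1 1 1) (t' - t) m hm0 hm1 (hE2 0 0) (hE2 0 1) (hE2 1 0)
    (hE2 1 1) (by linarith) (by linarith) (by linarith) (by linarith)
    (by
      have := w00.trans hb
      simpa using this)
    (by
      have := w01.trans hb
      simpa using this)
    (by
      have := w10.trans hb
      simpa using this)
    (by
      have := w11.trans hb
      simpa using this) hs
  have E0 : ∀ i j : Fin 2, (A * W).1 i j = A.1 i 0 * W.1 0 j + A.1 i 1 * W.1 1 j := by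
    intro i j
    have : (A * W).1 = A.1 * W.1 := rfl
    rw [this, Matrix.mul_apply, Fin.sum_univ_two]
  rw [E0 0 0, E0 0 1, E0 1 0, E0 1 1]
  exact hq

theorem CUR_R (F E : SL(2, ℝ)) (p q : SL(2, ℝ) → ℝ) (f : ℝ → SL(2, ℝ) → SL(2, ℝ)) (m x x' χ χ' : ℝ)
    (hm0 : 0 ≤ m) (hx : |x| ≤ 1 / 1000) (hx' : |x'| ≤ 1 / 1000) (hmx : |x - x'| ≤ m)
    (hχd : χ = st p q f F x) (hχd' : χ' = st p q f (F * E) x')
    (hχ : |χ| ≤ 1 / 4000) (hχ' : |χ'| ≤ 1 / 4000) (hχχ : |χ - χ'| ≤ 26 / 100 * m)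
    (r00 : |E.1 0 0 - 1| ≤ 2 * m) (r01 : |E.1 0 1| ≤ 2 * m) (r10 : |E.1 1 0| ≤ 2 * m)
    (r11 : |E.1 1 1 - 1| ≤ 2 * m) (R : SL(2, ℝ)) (hR : R = (Sb p q f x F)⁻¹ * Sb p q f x' (F * E)) :
    |R.1 1 0 - (E.1 1 0 + (χ' - χ))| ≤ m / 25 ∧ |R.1 0 1 - (E.1 0 1 + (x' - x))| ≤ m / 25 ∧
    |R.1 0 0 - R.1 1 1 - ((E.1 0 0 - 1) - (E.1 1 1 - 1))| ≤ m / 25 := by
  have hp : |x * χ| ≤ 1 / 1000 := (CUR_mul hx hχ).trans (by norm_num)
  have hp' : |x' * χ'| ≤ 1 / 1000 := (CUR_mul hx' hχ').trans (by norm_num)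
  have hpos : 0 ≤ 1 + x * χ := by
    have := (abs_le.1 hp).1
    linarith
  have hpos' : 0 ≤ 1 + x' * χ' := by
    have := (abs_le.1 hp').1
    linarith
  obtain ⟨a, ha⟩ : ∃ a, a = √(1 + x * χ) := ⟨_, rfl⟩
  obtain ⟨a', ha'⟩ : ∃ a', a' = √(1 + x' * χ') := ⟨_, rfl⟩
  have ha1 : |a - 1| ≤ 1 / 1000 := by
    rw [ha]
    exact (CUR_sqrt _ hp).trans hp
  have ha1' : |a' - 1| ≤ 1 / 1000 := by
    rw [ha']
    exact (CUR_sqrt _ hp').trans hp'
  have haa : |a - a'| ≤ m / 1000 := by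
    rw [ha, ha']
    refine (CUR_sqrt2 _ _ hp hp').trans ?_
    have e : x * χ - x' * χ' = x * (χ - χ') + χ' * (x - x') := by ring
    rw [e]
    have t1 := abs_le.1 (CUR_mul hx hχχ)
    have t2 := abs_le.1 (CUR_mul hχ' hmx)
    exact abs_le.2 ⟨by linarith, by linarith⟩
  have hR2 : R = (dg x χ)⁻¹ * (E * dg x' χ') := by
    rw [hR, hχd, hχd']
    unfold Sb
    group
  have hC : (dg x χ).1 = !![a, x; χ, a] := by
    rw [CUR_dg x χ hpos, ha]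
  have hC' : (dg x' χ').1 = !![a', x'; χ', a'] := by
    rw [CUR_dg x' χ' hpos', ha']
  have hRm : R.1 = !![a, -x; -χ, a] * (E.1 * !![a', x'; χ', a']) := by
    rw [hR2]
    have e1 : ((dg x χ)⁻¹ * (E * dg x' χ')).1 = ((dg x χ)⁻¹).1 * (E.1 * (dg x' χ').1) := rfl
    have e2 : ((dg x χ)⁻¹).1 = (dg x χ).1.adjugate := rfl
    rw [e1, e2, hC, hC', Matrix.adjugate_fin_two_of]
  have R00 : R.1 0 0 = a * ((1 + (E.1 0 0 - 1)) * a' + E.1 0 1 * χ') -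
      x * (E.1 1 0 * a' + (1 + (E.1 1 1 - 1)) * χ') := by
    rw [hRm]
    simp [Matrix.mul_apply, Fin.sum_univ_two]
    ring
  have R01 : R.1 0 1 = a * ((1 + (E.1 0 0 - 1)) * x' + E.1 0 1 * a') -
      x * (E.1 1 0 * x' + (1 + (E.1 1 1 - 1)) * a') := by
    rw [hRm]
    simp [Matrix.mul_apply, Fin.sum_univ_two]
    ring
  have R10 : R.1 1 0 = -χ * ((1 + (E.1 0 0 - 1)) * a' + E.1 0 1 * χ') +
      a * (E.1 1 0 * a' + (1 + (E.1 1 1 - 1)) * χ') := by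
    rw [hRm]
    simp [Matrix.mul_apply, Fin.sum_univ_two]
  have R11 : R.1 1 1 = -χ * ((1 + (E.1 0 0 - 1)) * x' + E.1 0 1 * a') +
      a * (E.1 1 0 * x' + (1 + (E.1 1 1 - 1)) * a') := by
    rw [hRm]
    simp [Matrix.mul_apply, Fin.sum_univ_two]
  have hxm : |x' - x| ≤ m := by rw [abs_sub_comm]; exact hmx
  have hχm0 : |χ' - χ| ≤ 26 / 100 * m := by rw [abs_sub_comm]; exact hχχ
  have hχm : |χ' - χ| ≤ m := hχm0.trans (by linarith)
  obtain ⟨k1, k2, k3⟩ := CUR_alg a a' x x' χ χ' (E.1 0 0 - 1) (E.1 0 1) (E.1 1 0) (E.1 1 1 - 1) m hm0 hx hx'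
    hχ hχ' ha1 ha1' haa hxm hχm r00 r01 r10 r11
  rw [← R10] at k1
  rw [← R01] at k2
  rw [← R00, ← R11] at k3
  exact ⟨k1, k2, k3⟩

theorem CUR_fin (m n c s ξ η R00 R01 R10 R11 E00 E01 E10 E11 D00 D01 D10 D11 : ℝ) (hm0 : 0 ≤ m)
    (hc : m = c ∨ m = |s| ∨ m = |ξ|) (hD10 : D10 = c)
    (k1 : |R10 - (E10 + η)| ≤ m / 25) (k2 : |R01 - (E01 + ξ)| ≤ m / 25)
    (k3 : |R00 - R11 - ((E00 - 1) - (E11 - 1))| ≤ m / 25) (hη : |η| ≤ 26 / 100 * m)
    (q1 : |E00 - (D00 + s / 2)| ≤ 13 / 1000 * m) (q2 : |E01 - D01| ≤ 13 / 1000 * m)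
    (q3 : |E10 - D10| ≤ 13 / 1000 * m) (q4 : |E11 - (D11 - s / 2)| ≤ 13 / 1000 * m)
    (hc2 : |D01| ≤ 1 / 10 * m) (hc3 : |D00 - D11| ≤ 1 / 10 * m)
    (m00 : |R00 - 1| ≤ n) (m01 : |R01| ≤ n) (m10 : |R10| ≤ n) (m11 : |R11 - 1| ≤ n) : m / 4 ≤ n := by
  rcases hc with h | h | h
  · have k1' := abs_le.1 k1
    have q3' := abs_le.1 q3
    have hη' := abs_le.1 hη
    have m10' := abs_le.1 m10
    linarith
  · have k3' := abs_le.1 k3
    have q1' := abs_le.1 q1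
    have q4' := abs_le.1 q4
    have hc3' := abs_le.1 hc3
    have m00' := abs_le.1 m00
    have m11' := abs_le.1 m11
    rcases abs_choice s with hl | hl
    · rw [hl] at h
      linarith
    · rw [hl] at h
      linarith
  · have k2' := abs_le.1 k2
    have q2' := abs_le.1 q2
    have hc2' := abs_le.1 hc2
    have m01' := abs_le.1 m01
    rcases abs_choice ξ with hl | hl
    · rw [hl] at h
      linarith
    · rw [hl] at h
      linarith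

theorem CUR_core (h2 : SML_stmt) (h3 : SME_stmt) (h4 : STP_stmt)
    (δ : ℝ) (p q : SL(2, ℝ) → ℝ) (f : ℝ → SL(2, ℝ) → SL(2, ℝ)) (hδ : 0 ≤ δ) (hδ' : δ ≤ 1 / 10000)
    (hF : Fld δ p q) (hW : Flw p q f) (g D : SL(2, ℝ)) (c : ℝ) (hc : 0 ≤ c) (hc1 : c ≤ 1 / 1000)
    (hD10 : D.1 1 0 = c) (hcone : |D.1 0 1| + |D.1 0 0 - D.1 1 1| ≤ 1 / 10 * c) (hnm : nm D ≤ c)
    (t t' x x' : ℝ) (ht : |t| ≤ 1 / 1000) (ht' : |t'| ≤ 1 / 1000) (hx : |x| ≤ 1 / 1000)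
    (hx' : |x'| ≤ 1 / 1000) :
    max c (max |t - t'| |x - x'|) / 4 ≤ nm ((Sb p q f x (f t g))⁻¹ * Sb p q f x' (f t' (g * D))) := by
  obtain ⟨m, hm⟩ : ∃ m, m = max c (max |t - t'| |x - x'|) := ⟨_, rfl⟩
  rw [← hm]
  have hmc : c ≤ m := by rw [hm]; exact le_max_left _ _
  have hmt : |t - t'| ≤ m := by
    rw [hm]; exact (le_max_left _ _).trans (le_max_right _ _)
  have hmx : |x - x'| ≤ m := by
    rw [hm]; exact (le_max_right _ _).trans (le_max_right _ _)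
  have hch : m = c ∨ m = |t' - t| ∨ m = |x' - x| := by
    rw [abs_sub_comm t' t, abs_sub_comm x' x]
    rcases max_choice c (max |t - t'| |x - x'|) with hh | hh
    · left
      rw [hm, hh]
    · rcases max_choice |t - t'| |x - x'| with hk | hk
      · right; left
        rw [hm, hh, hk]
      · right; right
        rw [hm, hh, hk]
  have hm0 : 0 ≤ m := hc.trans hmc
  have htt := abs_le.1 ht
  have htt' := abs_le.1 ht'
  have hxx := abs_le.1 hx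
  have hxx' := abs_le.1 hx'
  have htd : |t - t'| ≤ 1 / 500 := abs_le.2 ⟨by linarith, by linarith⟩
  have hxd : |x - x'| ≤ 1 / 500 := abs_le.2 ⟨by linarith, by linarith⟩
  have hm1 : m ≤ 1 / 500 := by
    rw [hm]
    exact max_le (by linarith) (max_le htd hxd)
  clear hm htt htt' hxx hxx'
  obtain ⟨E, hE, q1, q2, q3, q4⟩ := CUR_E h2 h3 δ p q f hδ hδ' hF hW g D m hm0 hm1 (hnm.trans hmc)
    (hnm.trans hc1) t t' ht (by rw [abs_sub_comm]; exact hmt) (by rw [abs_sub_comm]; exact htd)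
  rw [hE]
  obtain ⟨r00, r01, r10, r11, hnE⟩ : |E.1 0 0 - 1| ≤ 2 * m ∧ |E.1 0 1| ≤ 2 * m ∧ |E.1 1 0| ≤ 2 * m ∧
      |E.1 1 1 - 1| ≤ 2 * m ∧ nm E ≤ 2 * m := by
    obtain ⟨n00, n01, n10, n11⟩ := CUR_nm D
    have q1' := abs_le.1 q1
    have q2' := abs_le.1 q2
    have q3' := abs_le.1 q3
    have q4' := abs_le.1 q4
    have n00' := abs_le.1 n00
    have n01' := abs_le.1 n01
    have n10' := abs_le.1 n10
    have n11' := abs_le.1 n11
    have hs' := abs_le.1 hmt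
    clear q1 q2 q3 q4 n00 n01 n10 n11 hmx hxd htd hcone hch
    have r00 : |E.1 0 0 - 1| ≤ 2 * m := abs_le.2 ⟨by linarith, by linarith⟩
    have r01 : |E.1 0 1| ≤ 2 * m := abs_le.2 ⟨by linarith, by linarith⟩
    have r10 : |E.1 1 0| ≤ 2 * m := abs_le.2 ⟨by linarith, by linarith⟩
    have r11 : |E.1 1 1 - 1| ≤ 2 * m := abs_le.2 ⟨by linarith, by linarith⟩
    refine ⟨r00, r01, r10, r11, ?_⟩
    unfold nm
    exact max_le (max_le r00 r01) (max_le r10 r11)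
  obtain ⟨s1, s2, -⟩ := h4 δ p q f hδ hδ' hF hW
  obtain ⟨χ, hχd⟩ : ∃ χ, χ = st p q f (f t g) x := ⟨_, rfl⟩
  obtain ⟨χ', hχd'⟩ : ∃ χ', χ' = st p q f (f t g * E) x' := ⟨_, rfl⟩
  have hχ : |χ| ≤ 1 / 4000 := by
    have := (s1 (f t g) x (by linarith)).1
    rw [← hχd] at this
    linarith
  have hχ' : |χ'| ≤ 1 / 4000 := by
    have := (s1 (f t g * E) x' (by linarith)).1
    rw [← hχd'] at this
    linarith
  have hχχ : |χ - χ'| ≤ 26 / 100 * m := by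
    have := s2 (f t g) E x x' (by linarith) (by linarith)
    rw [← hχd, ← hχd'] at this
    refine this.trans ?_
    have h5 : 750 * δ * |x| * nm E ≤ 750 * (1 / 10000) * (1 / 1000) * (2 * m) := by
      have h6 : 0 ≤ nm E := (abs_nonneg _).trans (CUR_nm E).1
      have h7 : 750 * δ * |x| ≤ 750 * (1 / 10000) * (1 / 1000) :=
        mul_le_mul (by linarith) hx (abs_nonneg _) (by norm_num)
      exact mul_le_mul h7 hnE h6 (by norm_num)
    linarith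
  obtain ⟨R, hR⟩ : ∃ R, R = (Sb p q f x (f t g))⁻¹ * Sb p q f x' (f t g * E) := ⟨_, rfl⟩
  rw [← hR]
  obtain ⟨k1, k2, k3⟩ := CUR_R (f t g) E p q f m x x' χ χ' hm0 hx hx' hmx hχd hχd' hχ hχ' hχχ r00 r01 r10
    r11 R hR
  have hχm0 : |χ' - χ| ≤ 26 / 100 * m := by rw [abs_sub_comm]; exact hχχ
  obtain ⟨m00, m01, m10, m11⟩ := CUR_nm R
  have hc2 : |D.1 0 1| ≤ 1 / 10 * m := by
    have := abs_nonneg (D.1 0 0 - D.1 1 1)
    linarith
  have hc3 : |D.1 0 0 - D.1 1 1| ≤ 1 / 10 * m := by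
    have := abs_nonneg (D.1 0 1)
    linarith
  exact CUR_fin m (nm R) c (t' - t) (x' - x) (χ' - χ) _ _ _ _ _ _ _ _ _ _ _ _ hm0 hch hD10 k1 k2 k3
    hχm0 q1 q2 q3 q4 hc2 hc3 m00 m01 m10 m11

theorem CUR_tr (C1 : ℝ) (γ : ℝ → SL(2, ℝ)) (hC : 1 ≤ C1) (hU : UC C1 (1 / 10) γ) (v v' : ℝ) (h0 : 0 ≤ v)
    (h1 : v < v') (h2 : v' ≤ 1) (h3 : C1 * (v' - v) ≤ 1 / 1000) :
    0 < ((γ v)⁻¹ * γ v').1 0 0 + ((γ v)⁻¹ * γ v').1 1 1 := by
  by_contra hcon
  push Not at hcon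
  have hcont : ContinuousOn (fun w => ((γ v)⁻¹ * γ w).1 0 0 + ((γ v)⁻¹ * γ w).1 1 1) (Icc v v') := by
    have hg : ContinuousOn (fun w => (γ v)⁻¹ * γ w) (Icc v v') :=
      continuousOn_const.mul (hU.cont.mono (Icc_subset_Icc h0 h2))
    have hm : ContinuousOn (fun w => ((γ v)⁻¹ * γ w).1) (Icc v v') :=
      continuous_subtype_val.comp_continuousOn hg
    have he : ∀ i j : Fin 2, ContinuousOn (fun w => ((γ v)⁻¹ * γ w).1 i j) (Icc v v') := fun i j =>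
      ((continuous_apply_apply i j).comp_continuousOn hm)
    exact (he 0 0).add (he 1 1)
  have hv0 : (fun w => ((γ v)⁻¹ * γ w).1 0 0 + ((γ v)⁻¹ * γ w).1 1 1) v = 2 := by
    simp only [inv_mul_cancel]
    norm_num
  have hmem : (0 : ℝ) ∈ Icc ((fun w => ((γ v)⁻¹ * γ w).1 0 0 + ((γ v)⁻¹ * γ w).1 1 1) v')
      ((fun w => ((γ v)⁻¹ * γ w).1 0 0 + ((γ v)⁻¹ * γ w).1 1 1) v) := by
    rw [hv0]
    exact ⟨hcon, by norm_num⟩
  obtain ⟨w, hw, hw0⟩ := intermediate_value_Icc' h1.le hcont hmem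
  have hvw : v < w := by
    rcases hw.1.lt_or_eq with h | h
    · exact h
    · exfalso
      rw [← h, hv0] at hw0
      norm_num at hw0
  have hw0' : ((γ v)⁻¹ * γ w).1 0 0 + ((γ v)⁻¹ * γ w).1 1 1 = 0 := hw0
  have c1 := hU.hi v w h0 hvw (hw.2.trans h2)
  have c2 := hU.lo v w h0 hvw (hw.2.trans h2)
  have c3 := hU.cone v w h0 hvw (hw.2.trans h2)
  have c4 : C1 * (w - v) ≤ C1 * (v' - v) := mul_le_mul_of_nonneg_left (by linarith [hw.2]) (by linarith)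
  have c5 : 0 ≤ (w - v) / C1 := div_nonneg (by linarith) (by linarith)
  have hdet : ((γ v)⁻¹ * γ w).1 0 0 * ((γ v)⁻¹ * γ w).1 1 1 -
      ((γ v)⁻¹ * γ w).1 0 1 * ((γ v)⁻¹ * γ w).1 1 0 = 1 := by
    rw [← Matrix.det_fin_two]
    exact ((γ v)⁻¹ * γ w).2
  have h01 : |((γ v)⁻¹ * γ w).1 0 1| ≤ 1 := by
    have := abs_nonneg (((γ v)⁻¹ * γ w).1 0 0 - ((γ v)⁻¹ * γ w).1 1 1)
    linarith
  have h10 : |((γ v)⁻¹ * γ w).1 1 0| ≤ 1 / 1000 := abs_le.2 ⟨by linarith, by linarith⟩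
  have h5 := abs_le.1 (CUR_mul h01 h10)
  nlinarith [sq_nonneg (((γ v)⁻¹ * γ w).1 0 0 - ((γ v)⁻¹ * γ w).1 1 1)]

theorem CUR_proof (h1 : NMB_stmt) (h2 : SML_stmt) (h3 : SME_stmt) (h4 : STP_stmt) : CUR_stmt := by
  intro δ C1 p q f γ hδ hδ' hC hF hW hU
  have main : ∀ v v' t t' x x' : ℝ, v ∈ Icc (0 : ℝ) 1 → v' ∈ Icc (0 : ℝ) 1 → v ≤ v' →
      C1 * |v - v'| ≤ 1 / 1000 → |t| ≤ 1 / 1000 → |t'| ≤ 1 / 1000 → |x| ≤ 1 / 1000 → |x'| ≤ 1 / 1000 →
      max (|v - v'| / C1) (max |t - t'| |x - x'|) / 4 ≤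
        nm ((Sb p q f x (f t (γ v)))⁻¹ * Sb p q f x' (f t' (γ v'))) := by
    intro v v' t t' x x' hv hv' hvv hC1 ht ht' hx hx'
    rcases hvv.eq_or_lt with he | hlt
    · subst he
      have hn1 : nm 1 = 0 := (h1.2.1 1).2 rfl
      have := CUR_core h2 h3 h4 δ p q f hδ hδ' hF hW (γ v) 1 0 le_rfl (by norm_num) (by norm_num)
        (by norm_num) hn1.le t t' x x' ht ht' hx hx'
      rw [mul_one] at this
      rw [sub_self, abs_zero, zero_div]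
      exact this
    · have habs : |v - v'| = v' - v := by
        rw [abs_sub_comm, abs_of_pos (by linarith)]
      rw [habs] at hC1
      rw [habs]
      obtain ⟨D, hD⟩ : ∃ D, D = (γ v)⁻¹ * γ v' := ⟨_, rfl⟩
      have htr := CUR_tr C1 γ hC hU v v' hv.1 hlt hv'.2 hC1
      have c1 := hU.hi v v' hv.1 hlt hv'.2
      have c2 := hU.lo v v' hv.1 hlt hv'.2
      have c3 := hU.cone v v' hv.1 hlt hv'.2
      rw [← hD] at htr c1 c2 c3
      have hgD : γ v' = γ v * D := by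
        rw [hD, mul_inv_cancel_left]
      have c5 : 0 ≤ (v' - v) / C1 := div_nonneg (by linarith) (by linarith)
      have hdet : D.1 0 0 * D.1 1 1 - D.1 0 1 * D.1 1 0 = 1 := by
        rw [← Matrix.det_fin_two]
        exact D.2
      obtain ⟨c, hc⟩ : ∃ c, c = D.1 1 0 := ⟨_, rfl⟩
      rw [← hc] at c1 c2 c3 hdet
      have hc0 : 0 ≤ c := c5.trans c2
      have hc1 : c ≤ 1 / 1000 := c1.trans hC1
      have hb : |D.1 0 1| ≤ 1 / 10 * c := by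
        have := abs_nonneg (D.1 0 0 - D.1 1 1)
        linarith
      have hd : |D.1 0 0 - D.1 1 1| ≤ 1 / 10 * c := by
        have := abs_nonneg (D.1 0 1)
        linarith
      have hb' := abs_le.1 hb
      have hd' := abs_le.1 hd
      -- the trace is close to 2
      have hbc := abs_le.1 (CUR_mul hb (abs_le.2 ⟨by linarith, le_refl c⟩ : |c| ≤ c))
      have hdd := abs_le.1 (CUR_mul hd hd)
      have hcc : c * c ≤ 1 / 1000 * c := mul_le_mul_of_nonneg_right hc1 hc0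
      obtain ⟨s, hs⟩ : ∃ s, s = D.1 0 0 + D.1 1 1 := ⟨_, rfl⟩
      rw [← hs] at htr
      have hs2 : (s - 2) * (s + 2) = (D.1 0 0 - D.1 1 1) * (D.1 0 0 - D.1 1 1) + 4 * (D.1 0 1 * c) := by
        rw [hs]
        linear_combination 4 * hdet
      have hs3 : |s - 2| ≤ 1 / 100 * c := by
        have e1 : |(s - 2) * (s + 2)| ≤ 1 / 100 * c := by
          rw [hs2]
          refine abs_le.2 ⟨?_, ?_⟩ <;> nlinarith
        rw [abs_mul, abs_of_pos (by linarith : 0 < s + 2)] at e1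
        nlinarith [abs_nonneg (s - 2)]
      have hs4 := abs_le.1 hs3
      have hnm : nm D ≤ c := by
        unfold nm
        refine max_le (max_le ?_ ?_) (max_le ?_ ?_)
        · exact abs_le.2 ⟨by linarith, by linarith⟩
        · linarith
        · rw [← hc]
          exact abs_le.2 ⟨by linarith, le_refl c⟩
        · exact abs_le.2 ⟨by linarith, by linarith⟩
      have := CUR_core h2 h3 h4 δ p q f hδ hδ' hF hW (γ v) D c hc0 hc1 hc.symm c3 hnm t t' x x' ht ht' hx hx'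
      rw [← hgD] at this
      refine le_trans ?_ this
      have : max ((v' - v) / C1) (max |t - t'| |x - x'|) ≤ max c (max |t - t'| |x - x'|) :=
        max_le_max c2 le_rfl
      linarith
  intro v v' t t' x x' hv hv' hC1 ht ht' hx hx'
  rcases le_total v v' with h | h
  · exact main v v' t t' x x' hv hv' h hC1 ht ht' hx hx'
  · have := main v' v t' t x' x hv' hv h (by rw [abs_sub_comm]; exact hC1) ht' ht hx' hx
    rw [abs_sub_comm v' v, abs_sub_comm t' t, abs_sub_comm x' x] at this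
    refine this.trans (le_of_eq ?_)
    rw [← h1.2.2.1]
    congr 1
    group

end Pool.Agent.VQE
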